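import Pool.Agent.Helper76.TK5.StK

/-!
# Project TK5, module TYPK: maps of the plane and their types

All maps are written as pairs of fractional linear maps in one coordinate; the relations are identities of matrices up to scalars.
Model: `Pool/Agent/Helper42/TH/M_TYPH.lean`.
-/

set_option autoImplicit false

namespace Pool.Agent.Helper44.TK5

open Pool.Agent.Helper76.TK5
open Pool.Agent.Helper76.TH (TyH)
open Pool.Agent.Helper4.TK
open Pool.Agent.Helper14.W5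

private theorem unit5 {m : ℕ} (a : ℤ) (ha : ¬ (5 : ℤ) ∣ a) (z : ZMod (5 ^ m)) :
    IsUnit ((a : ZMod (5 ^ m)) + 5 * z) := by
  obtain ⟨k, rfl⟩ := ZMod.intCast_surjective z
  have h5 : Prime (5 : ℤ) := by norm_num
  have h1 : IsCoprime (5 : ℤ) (a + 5 * k) := by
    refine (Irreducible.coprime_iff_not_dvd h5.irreducible).mpr fun h => ha ?_
    exact (dvd_add_left (dvd_mul_right 5 k)).mp h
  obtain ⟨u, v, huv⟩ := h1.pow_left (m := m)
  refine IsUnit.of_mul_eq_one ((v : ZMod (5 ^ m))) ?_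
  have h2 := congrArg (Int.cast : ℤ → ZMod (5 ^ m)) huv
  push_cast at h2
  have h3 : (5 : ZMod (5 ^ m)) ^ m = 0 := by
    have := ZMod.natCast_self (5 ^ m)
    push_cast at this
    exact this
  rw [h3] at h2
  linear_combination h2

private theorem unitA (μ : ℕ) {m : ℕ} (a c : ℤ) (ha : ¬ (5 : ℤ) ∣ a) (x : ZMod (5 ^ m)) :
    IsUnit ((a : ZMod (5 ^ m)) + 5 ^ (μ + 1) * c * x) := by
  have h := unit5 (m := m) a ha (5 ^ μ * c * x)
  have e : (a : ZMod (5 ^ m)) + 5 * (5 ^ μ * c * x) = (a : ZMod (5 ^ m)) + 5 ^ (μ + 1) * c * x := by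
    ring
  rwa [e] at h

private theorem frac_eq {n : ℕ} {x y s t : ZMod n} (hs : IsUnit s) (ht : IsUnit t)
    (h : x * t = y * s) : x * s⁻¹ = y * t⁻¹ := by
  have h1 := ZMod.mul_inv_of_unit s hs
  have h2 := ZMod.mul_inv_of_unit t ht
  linear_combination (x * s⁻¹) * (-h2) + (y * t⁻¹) * h1 + s⁻¹ * t⁻¹ * h

/-- The fraction in the definition of `trp`. -/
private noncomputable def mob (μ : ℕ) {m : ℕ} (a b c d : ℤ) (t : ZMod (5 ^ m)) : ZMod (5 ^ m) :=
  ((b : ZMod (5 ^ m)) + d * t) * ((a : ZMod (5 ^ m)) + 5 ^ (μ + 1) * c * t)⁻¹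

private theorem trp_eq (μ : ℕ) {m : ℕ} (a b c d : ℤ) (p : Pt m) :
    trp μ a b c d p = (mob μ a b c d p.1, mob μ d c b a p.2) := rfl

private theorem mob_mob (μ : ℕ) {m : ℕ} (a b c d a' b' c' d' : ℤ) (ha : ¬ (5 : ℤ) ∣ a)
    (ha' : ¬ (5 : ℤ) ∣ a') (hA : ¬ (5 : ℤ) ∣ a * a' + 5 ^ (μ + 1) * b * c') (t : ZMod (5 ^ m)) :
    mob μ a' b' c' d' (mob μ a b c d t) =
      mob μ (a * a' + 5 ^ (μ + 1) * b * c') (a * b' + b * d') (c * a' + d * c')
        (5 ^ (μ + 1) * c * b' + d * d') t := by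
  have h1 := ZMod.mul_inv_of_unit _ (unitA μ a c ha t)
  refine frac_eq (unitA μ a' c' ha' _) (unitA μ _ _ hA t) ?_
  unfold mob
  push_cast
  linear_combination (d' * ((b : ZMod (5 ^ m)) + d * t) * a' -
    b' * (5 ^ (μ + 1) * c' * ((b : ZMod (5 ^ m)) + d * t))) * h1

private theorem mob_id (μ : ℕ) {m : ℕ} (t : ZMod (5 ^ m)) : mob μ 1 0 0 1 t = t := by
  unfold mob
  simp

private theorem mob_arg_neg (μ : ℕ) {m : ℕ} (a b c d : ℤ) (t : ZMod (5 ^ m)) :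
    mob μ a b c d (-t) = mob μ a b (-c) (-d) t := by
  unfold mob
  push_cast
  ring_nf

private theorem dv_mob (μ : ℕ) {m : ℕ} (a b c d s : ℤ) (ha : ¬ (5 : ℤ) ∣ a)
    (hs : (5 : ℤ) ∣ a * d - 5 ^ (μ + 1) * b * c - s * a ^ 2) :
    Dv s (mob μ a b c d : ZMod (5 ^ m) → ZMod (5 ^ m)) := by
  intro i x x' hx
  obtain ⟨k, hk⟩ := hx
  obtain ⟨q, hq⟩ := hs
  have hq' := congrArg (Int.cast : ℤ → ZMod (5 ^ m)) hq
  push_cast at hq'
  have h := ZMod.mul_inv_of_unit _ (unitA μ a c ha x)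
  have h' := ZMod.mul_inv_of_unit _ (unitA μ a c ha x')
  unfold mob
  set v := ((a : ZMod (5 ^ m)) + 5 ^ (μ + 1) * c * x)⁻¹ with hv
  set v' := ((a : ZMod (5 ^ m)) + 5 ^ (μ + 1) * c * x')⁻¹ with hv'
  refine ⟨k * v * v' * (q - s * (5 ^ μ * c * x * a + 5 ^ μ * c * x' * a +
    5 ^ μ * 5 ^ (μ + 1) * c ^ 2 * x * x')), ?_⟩
  linear_combination (((b : ZMod (5 ^ m)) + d * x') * v' + s * (x - x')) * h +
    (-((b : ZMod (5 ^ m)) + d * x) * v +
      s * (x - x') * (((a : ZMod (5 ^ m)) + 5 ^ (μ + 1) * c * x) * v)) * h' +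
    v * v' * ((a * d - 5 ^ (μ + 1) * b * c) - s * (((a : ZMod (5 ^ m)) + 5 ^ (μ + 1) * c * x) *
      ((a : ZMod (5 ^ m)) + 5 ^ (μ + 1) * c * x'))) * hk + 5 ^ i * k * v * v' * hq'

private theorem dv_neg {m : ℕ} : Dv (-1) (fun x : ZMod (5 ^ m) => -x) := by
  intro i x x' _
  refine ⟨0, ?_⟩
  push_cast
  ring

/-- Composition of two fractional linear maps, up to the scalar `k`. -/
private theorem mm (μ : ℕ) (k : ℤ) {m : ℕ} (a b c d a' b' c' d' A B C D : ℤ) (ha : ¬ (5 : ℤ) ∣ a)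
    (ha' : ¬ (5 : ℤ) ∣ a') (hA : ¬ (5 : ℤ) ∣ A) (hk : ¬ (5 : ℤ) ∣ k)
    (h1 : a * a' + 5 ^ (μ + 1) * b * c' = k * A) (h2 : a * b' + b * d' = k * B)
    (h3 : c * a' + d * c' = k * C) (h4 : 5 ^ (μ + 1) * c * b' + d * d' = k * D) (t : ZMod (5 ^ m)) :
    mob μ a' b' c' d' (mob μ a b c d t) = mob μ A B C D t := by
  have h5 : Prime (5 : ℤ) := by norm_num
  have hkA : ¬ (5 : ℤ) ∣ k * A := fun h => (h5.dvd_or_dvd h).elim hk hA
  rw [mob_mob μ a b c d a' b' c' d' ha ha' (by rw [h1]; exact hkA) t, h1, h2, h3, h4]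
  refine frac_eq (unitA μ _ _ hkA t) (unitA μ A C hA t) ?_
  push_cast
  ring

private theorem ty0 {m : ℕ} (r : Pt m → Pt m) (μ : ℕ) (s s' : ℤ) (a b c d a' b' c' d' : ℤ)
    (ha : ¬ (5 : ℤ) ∣ a) (ha' : ¬ (5 : ℤ) ∣ a') (h0 : ¬ (5 : ℤ) ∣ s) (h0' : ¬ (5 : ℤ) ∣ s')
    (h1 : ¬ (5 : ℤ) ∣ s - 1) (h1' : ¬ (5 : ℤ) ∣ s' - 1)
    (hs : (5 : ℤ) ∣ a * d - 5 ^ (μ + 1) * b * c - s * a ^ 2)
    (hs' : (5 : ℤ) ∣ a' * d' - 5 ^ (μ + 1) * b' * c' - s' * a' ^ 2)
    (h : ∀ p : Pt m, r p = (mob μ a b c d p.1, mob μ a' b' c' d' p.2)) : TyH 0 r :=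
  Or.inl ⟨rfl, s, s', _, _, h0, h0', h1, h1', dv_mob μ a b c d s ha hs, dv_mob μ a' b' c' d' s' ha' hs', h⟩

private theorem ty1 {m : ℕ} (r : Pt m → Pt m) (μ : ℕ) (s s' : ℤ) (a b c d a' b' c' d' : ℤ)
    (ha : ¬ (5 : ℤ) ∣ a) (ha' : ¬ (5 : ℤ) ∣ a') (h0 : ¬ (5 : ℤ) ∣ s) (h0' : ¬ (5 : ℤ) ∣ s')
    (hs : (5 : ℤ) ∣ a * d - 5 ^ (μ + 1) * b * c - s * a ^ 2)
    (hs' : (5 : ℤ) ∣ a' * d' - 5 ^ (μ + 1) * b' * c' - s' * a' ^ 2)
    (h : ∀ p : Pt m, r p = (mob μ a b c d p.2, mob μ a' b' c' d' p.1)) : TyH 1 r :=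
  Or.inr ⟨rfl, s, s', _, _, h0, h0', dv_mob μ a b c d s ha hs, dv_mob μ a' b' c' d' s' ha' hs', h⟩

private theorem dR_eq (μ : ℕ) {m : ℕ} (p : Pt m) :
    dR μ p = (mob μ 1 (-1) 0 (-1) p.1, mob μ 1 0 1 (-1) p.2) := by
  show (mob μ 1 (-1) 0 1 (-p.1), mob μ 1 0 (-1) 1 (-p.2)) = _
  rw [mob_arg_neg, mob_arg_neg]
  norm_num

private theorem dRdR (μ : ℕ) {m : ℕ} (p : Pt m) : dR μ (dR μ p) = p := by
  rw [dR_eq, dR_eq]
  refine Prod.ext ?_ ?_
  · show mob μ 1 (-1) 0 (-1) (mob μ 1 (-1) 0 (-1) p.1) = p.1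
    rw [mob_mob _ _ _ _ _ _ _ _ _ (by norm_num) (by norm_num) (by norm_num)]
    norm_num [mob_id]
  · show mob μ 1 0 1 (-1) (mob μ 1 0 1 (-1) p.2) = p.2
    rw [mob_mob _ _ _ _ _ _ _ _ _ (by norm_num) (by norm_num) (by norm_num)]
    norm_num [mob_id]

private theorem swK_eq0 {m : ℕ} (p : Pt m) :
    swK p = (mob 0 3 0 0 1 p.2, mob 0 1 0 0 3 p.1) := by
  unfold swK mob
  simp

private theorem ngsw_eq0 {m : ℕ} (p : Pt m) :
    ng (swK p) = (mob 0 3 0 0 (-1) p.2, mob 0 1 0 0 (-3) p.1) := by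
  unfold ng swK mob
  simp

private theorem swK_eq1 {m : ℕ} (p : Pt m) :
    swK p = (mob 1 3 0 0 1 p.2, mob 1 1 0 0 3 p.1) := by
  unfold swK mob
  simp

private theorem ngsw_eq1 {m : ℕ} (p : Pt m) :
    ng (swK p) = (mob 1 3 0 0 (-1) p.2, mob 1 1 0 0 (-3) p.1) := by
  unfold ng swK mob
  simp

private theorem cOK_eq {m : ℕ} (p : Pt m) :
    cOK p = (mob 0 6 (-3) 3 (-7) p.2, mob 0 (-7) 3 (-3) 6 p.1) := by
  unfold cOK
  rw [swK_eq0, trp_eq]
  exact Prod.ext (mm _ 1 _ _ _ _ _ _ _ _ _ _ _ _ (by norm_num) (by norm_num) (by norm_num) (by norm_num) (by norm_num) (by norm_num)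
      (by norm_num) (by norm_num) _)
    (mm _ 1 _ _ _ _ _ _ _ _ _ _ _ _ (by norm_num) (by norm_num) (by norm_num) (by norm_num) (by norm_num) (by norm_num)
      (by norm_num) (by norm_num) _)

private theorem dOK_eq {m : ℕ} (p : Pt m) :
    dOK p = (mob 0 3 (-1) 1 (-2) p.2, mob 0 2 (-1) 1 (-3) p.1) := by
  unfold dOK
  rw [ngsw_eq0, trp_eq]
  exact Prod.ext (mm _ 3 _ _ _ _ _ _ _ _ _ _ _ _ (by norm_num) (by norm_num) (by norm_num) (by norm_num) (by norm_num) (by norm_num)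
      (by norm_num) (by norm_num) _)
    (mm _ 3 _ _ _ _ _ _ _ _ _ _ _ _ (by norm_num) (by norm_num) (by norm_num) (by norm_num) (by norm_num) (by norm_num)
      (by norm_num) (by norm_num) _)

private theorem c3K_eq {m : ℕ} (p : Pt m) :
    c3K p = (mob 1 12 (-1) 1 (-2) p.2, mob 1 (-2) 1 (-1) 12 p.1) := by
  unfold c3K
  rw [swK_eq1, trp_eq]
  exact Prod.ext (mm _ 3 _ _ _ _ _ _ _ _ _ _ _ _ (by norm_num) (by norm_num) (by norm_num) (by norm_num) (by norm_num) (by norm_num)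
      (by norm_num) (by norm_num) _)
    (mm _ 3 _ _ _ _ _ _ _ _ _ _ _ _ (by norm_num) (by norm_num) (by norm_num) (by norm_num) (by norm_num) (by norm_num)
      (by norm_num) (by norm_num) _)

private theorem c1K_eq {m : ℕ} (p : Pt m) :
    c1K p = (mob 1 3 (-1) 1 (-8) p.2, mob 1 (-8) 1 (-1) 3 p.1) := by
  unfold c1K
  rw [swK_eq1, trp_eq]
  exact Prod.ext (mm _ 3 _ _ _ _ _ _ _ _ _ _ _ _ (by norm_num) (by norm_num) (by norm_num) (by norm_num) (by norm_num) (by norm_num)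
      (by norm_num) (by norm_num) _)
    (mm _ 3 _ _ _ _ _ _ _ _ _ _ _ _ (by norm_num) (by norm_num) (by norm_num) (by norm_num) (by norm_num) (by norm_num)
      (by norm_num) (by norm_num) _)

private theorem c2K_eq {m : ℕ} (p : Pt m) :
    c2K p = (mob 1 6 (-3) 3 (-37) p.2, mob 1 (-37) 3 (-3) 6 p.1) := by
  unfold c2K
  rw [swK_eq1, trp_eq]
  exact Prod.ext (mm _ 1 _ _ _ _ _ _ _ _ _ _ _ _ (by norm_num) (by norm_num) (by norm_num) (by norm_num) (by norm_num) (by norm_num)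
      (by norm_num) (by norm_num) _)
    (mm _ 1 _ _ _ _ _ _ _ _ _ _ _ _ (by norm_num) (by norm_num) (by norm_num) (by norm_num) (by norm_num) (by norm_num)
      (by norm_num) (by norm_num) _)

private theorem dMK_eq {m : ℕ} (p : Pt m) :
    dMK p = (mob 1 12 (-3) 3 (-19) p.2, mob 1 19 (-3) 3 (-12) p.1) := by
  unfold dMK
  rw [ngsw_eq1, trp_eq]
  exact Prod.ext (mm _ 1 _ _ _ _ _ _ _ _ _ _ _ _ (by norm_num) (by norm_num) (by norm_num) (by norm_num) (by norm_num) (by norm_num)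
      (by norm_num) (by norm_num) _)
    (mm _ 1 _ _ _ _ _ _ _ _ _ _ _ _ (by norm_num) (by norm_num) (by norm_num) (by norm_num) (by norm_num) (by norm_num)
      (by norm_num) (by norm_num) _)

private theorem gaK_eq {m : ℕ} (p : Pt m) :
    gaK p = (mob 1 33 (-4) 3 (-9) p.1, mob 1 (-9) 3 (-4) 33 p.2) := rfl

private theorem swsw {m : ℕ} (p : Pt m) : swK (swK p) = p := by
  rw [swK_eq0, swK_eq0]
  exact Prod.ext ((mm _ 3 _ _ _ _ _ _ _ _ 1 0 0 1 (by norm_num) (by norm_num) (by norm_num) (by norm_num) (by norm_num) (by norm_num)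
      (by norm_num) (by norm_num) _).trans (mob_id _ _))
    ((mm _ 3 _ _ _ _ _ _ _ _ 1 0 0 1 (by norm_num) (by norm_num) (by norm_num) (by norm_num) (by norm_num) (by norm_num)
      (by norm_num) (by norm_num) _).trans (mob_id _ _))

private theorem cOcO {m : ℕ} (p : Pt m) : cOK (cOK p) = p := by
  rw [cOK_eq, cOK_eq]
  exact Prod.ext ((mm _ 3 _ _ _ _ _ _ _ _ 1 0 0 1 (by norm_num) (by norm_num) (by norm_num) (by norm_num) (by norm_num) (by norm_num)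
      (by norm_num) (by norm_num) _).trans (mob_id _ _))
    ((mm _ 3 _ _ _ _ _ _ _ _ 1 0 0 1 (by norm_num) (by norm_num) (by norm_num) (by norm_num) (by norm_num) (by norm_num)
      (by norm_num) (by norm_num) _).trans (mob_id _ _))

private theorem dOdO {m : ℕ} (p : Pt m) : dOK (dOK p) = p := by
  rw [dOK_eq, dOK_eq]
  exact Prod.ext ((mm _ 1 _ _ _ _ _ _ _ _ 1 0 0 1 (by norm_num) (by norm_num) (by norm_num) (by norm_num) (by norm_num) (by norm_num)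
      (by norm_num) (by norm_num) _).trans (mob_id _ _))
    ((mm _ 1 _ _ _ _ _ _ _ _ 1 0 0 1 (by norm_num) (by norm_num) (by norm_num) (by norm_num) (by norm_num) (by norm_num)
      (by norm_num) (by norm_num) _).trans (mob_id _ _))

private theorem c3c3 {m : ℕ} (p : Pt m) : c3K (c3K p) = p := by
  rw [c3K_eq, c3K_eq]
  exact Prod.ext ((mm _ 1 _ _ _ _ _ _ _ _ 1 0 0 1 (by norm_num) (by norm_num) (by norm_num) (by norm_num) (by norm_num) (by norm_num)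
      (by norm_num) (by norm_num) _).trans (mob_id _ _))
    ((mm _ 1 _ _ _ _ _ _ _ _ 1 0 0 1 (by norm_num) (by norm_num) (by norm_num) (by norm_num) (by norm_num) (by norm_num)
      (by norm_num) (by norm_num) _).trans (mob_id _ _))

private theorem c1c1 {m : ℕ} (p : Pt m) : c1K (c1K p) = p := by
  rw [c1K_eq, c1K_eq]
  exact Prod.ext ((mm _ 1 _ _ _ _ _ _ _ _ 1 0 0 1 (by norm_num) (by norm_num) (by norm_num) (by norm_num) (by norm_num) (by norm_num)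
      (by norm_num) (by norm_num) _).trans (mob_id _ _))
    ((mm _ 1 _ _ _ _ _ _ _ _ 1 0 0 1 (by norm_num) (by norm_num) (by norm_num) (by norm_num) (by norm_num) (by norm_num)
      (by norm_num) (by norm_num) _).trans (mob_id _ _))

private theorem c2c2 {m : ℕ} (p : Pt m) : c2K (c2K p) = p := by
  rw [c2K_eq, c2K_eq]
  exact Prod.ext ((mm _ 3 _ _ _ _ _ _ _ _ 1 0 0 1 (by norm_num) (by norm_num) (by norm_num) (by norm_num) (by norm_num) (by norm_num)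
      (by norm_num) (by norm_num) _).trans (mob_id _ _))
    ((mm _ 3 _ _ _ _ _ _ _ _ 1 0 0 1 (by norm_num) (by norm_num) (by norm_num) (by norm_num) (by norm_num) (by norm_num)
      (by norm_num) (by norm_num) _).trans (mob_id _ _))

private theorem dMdM {m : ℕ} (p : Pt m) : dMK (dMK p) = p := by
  rw [dMK_eq, dMK_eq]
  exact Prod.ext ((mm _ 3 _ _ _ _ _ _ _ _ 1 0 0 1 (by norm_num) (by norm_num) (by norm_num) (by norm_num) (by norm_num) (by norm_num)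
      (by norm_num) (by norm_num) _).trans (mob_id _ _))
    ((mm _ 3 _ _ _ _ _ _ _ _ 1 0 0 1 (by norm_num) (by norm_num) (by norm_num) (by norm_num) (by norm_num) (by norm_num)
      (by norm_num) (by norm_num) _).trans (mob_id _ _))

private theorem dRcO {m : ℕ} (p : Pt m) :
    dR 0 (cOK p) = (mob 0 6 (-3) 3 (-8) p.2, mob 0 8 (-3) 3 (-6) p.1) := by
  rw [cOK_eq, dR_eq]
  exact Prod.ext (mm _ 1 _ _ _ _ _ _ _ _ _ _ _ _ (by norm_num) (by norm_num) (by norm_num) (by norm_num) (by norm_num) (by norm_num)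
      (by norm_num) (by norm_num) _)
    (mm _ 1 _ _ _ _ _ _ _ _ _ _ _ _ (by norm_num) (by norm_num) (by norm_num) (by norm_num) (by norm_num) (by norm_num)
      (by norm_num) (by norm_num) _)

private theorem cOdR {m : ℕ} (p : Pt m) :
    cOK (dR 0 p) = (mob 0 6 (-3) 3 (-8) p.2, mob 0 8 (-3) 3 (-6) p.1) := by
  rw [dR_eq, cOK_eq]
  exact Prod.ext (mm _ 1 _ _ _ _ _ _ _ _ _ _ _ _ (by norm_num) (by norm_num) (by norm_num) (by norm_num) (by norm_num) (by norm_num)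
      (by norm_num) (by norm_num) _)
    (mm _ 1 _ _ _ _ _ _ _ _ _ _ _ _ (by norm_num) (by norm_num) (by norm_num) (by norm_num) (by norm_num) (by norm_num)
      (by norm_num) (by norm_num) _)

private theorem dRc2 {m : ℕ} (p : Pt m) :
    dR 1 (c2K p) = (mob 1 6 (-3) 3 (-38) p.2, mob 1 38 (-3) 3 (-6) p.1) := by
  rw [c2K_eq, dR_eq]
  exact Prod.ext (mm _ 1 _ _ _ _ _ _ _ _ _ _ _ _ (by norm_num) (by norm_num) (by norm_num) (by norm_num) (by norm_num) (by norm_num)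
      (by norm_num) (by norm_num) _)
    (mm _ 1 _ _ _ _ _ _ _ _ _ _ _ _ (by norm_num) (by norm_num) (by norm_num) (by norm_num) (by norm_num) (by norm_num)
      (by norm_num) (by norm_num) _)

private theorem c2dR {m : ℕ} (p : Pt m) :
    c2K (dR 1 p) = (mob 1 6 (-3) 3 (-38) p.2, mob 1 38 (-3) 3 (-6) p.1) := by
  rw [dR_eq, c2K_eq]
  exact Prod.ext (mm _ 1 _ _ _ _ _ _ _ _ _ _ _ _ (by norm_num) (by norm_num) (by norm_num) (by norm_num) (by norm_num) (by norm_num)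
      (by norm_num) (by norm_num) _)
    (mm _ 1 _ _ _ _ _ _ _ _ _ _ _ _ (by norm_num) (by norm_num) (by norm_num) (by norm_num) (by norm_num) (by norm_num)
      (by norm_num) (by norm_num) _)

private theorem dOsw {m : ℕ} (p : Pt m) :
    dOK (swK p) = (mob 0 3 (-1) 3 (-6) p.1, mob 0 6 (-3) 1 (-3) p.2) := by
  rw [swK_eq0, dOK_eq]
  exact Prod.ext (mm _ 1 _ _ _ _ _ _ _ _ _ _ _ _ (by norm_num) (by norm_num) (by norm_num) (by norm_num) (by norm_num) (by norm_num)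
      (by norm_num) (by norm_num) _)
    (mm _ 1 _ _ _ _ _ _ _ _ _ _ _ _ (by norm_num) (by norm_num) (by norm_num) (by norm_num) (by norm_num) (by norm_num)
      (by norm_num) (by norm_num) _)

private theorem cOdO {m : ℕ} (p : Pt m) :
    cOK (dOK p) = (mob 0 3 (-1) 3 (-6) p.1, mob 0 6 (-3) 1 (-3) p.2) := by
  rw [dOK_eq, cOK_eq]
  exact Prod.ext (mm _ (-1) _ _ _ _ _ _ _ _ _ _ _ _ (by norm_num) (by norm_num) (by norm_num) (by norm_num) (by norm_num) (by norm_num)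
      (by norm_num) (by norm_num) _)
    (mm _ (-1) _ _ _ _ _ _ _ _ _ _ _ _ (by norm_num) (by norm_num) (by norm_num) (by norm_num) (by norm_num) (by norm_num)
      (by norm_num) (by norm_num) _)

private theorem gac2 {m : ℕ} (p : Pt m) :
    gaK (c2K p) = (mob 1 (-9) 1 (-4) 11 p.2, mob 1 11 (-4) 1 (-9) p.1) := by
  rw [c2K_eq, gaK_eq]
  exact Prod.ext (mm _ 3 _ _ _ _ _ _ _ _ _ _ _ _ (by norm_num) (by norm_num) (by norm_num) (by norm_num) (by norm_num) (by norm_num)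
      (by norm_num) (by norm_num) _)
    (mm _ 3 _ _ _ _ _ _ _ _ _ _ _ _ (by norm_num) (by norm_num) (by norm_num) (by norm_num) (by norm_num) (by norm_num)
      (by norm_num) (by norm_num) _)

private theorem swga {m : ℕ} (p : Pt m) :
    swK (gaK p) = (mob 1 (-9) 1 (-4) 11 p.2, mob 1 11 (-4) 1 (-9) p.1) := by
  rw [gaK_eq, swK_eq1]
  exact Prod.ext (mm _ 3 _ _ _ _ _ _ _ _ _ _ _ _ (by norm_num) (by norm_num) (by norm_num) (by norm_num) (by norm_num) (by norm_num)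
      (by norm_num) (by norm_num) _)
    (mm _ 3 _ _ _ _ _ _ _ _ _ _ _ _ (by norm_num) (by norm_num) (by norm_num) (by norm_num) (by norm_num) (by norm_num)
      (by norm_num) (by norm_num) _)

/-- TYPK. -/
theorem hTypK : HTypK := by
  intro m
  refine ⟨⟨⟨?_, swsw, ?_⟩, ?_, ?_, ?_⟩,
    ⟨⟨dRdR 0, cOcO, fun p => (dRcO p).trans (cOdR p).symm⟩, ?_, ?_, ?_⟩,
    ⟨dOdO, ?_, fun p => (dOsw p).trans (cOdO p).symm⟩,
    ⟨⟨dRdR 1, c2c2, fun p => (dRc2 p).trans (c2dR p).symm⟩, ?_, ?_, ?_⟩,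
    ⟨c3c3, ?_⟩, ⟨c1c1, ?_⟩, ⟨dMdM, ?_⟩, ?_, fun p => (gac2 p).trans (swga p).symm⟩
  · intro p
    simp [ng]
  · intro p
    simp [ng, swK]
  · exact Or.inl ⟨rfl, -1, -1, _, _, by norm_num, by norm_num, by norm_num, by norm_num, dv_neg, dv_neg,
      fun p => rfl⟩
  · exact ty1 _ 1 2 3 _ _ _ _ _ _ _ _ (by norm_num) (by norm_num) (by norm_num) (by norm_num)
      (by norm_num) (by norm_num) swK_eq1
  · exact ty1 _ 1 3 2 _ _ _ _ _ _ _ _ (by norm_num) (by norm_num) (by norm_num) (by norm_num)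
      (by norm_num) (by norm_num) ngsw_eq1
  · exact ty0 _ 0 4 4 _ _ _ _ _ _ _ _ (by norm_num) (by norm_num) (by norm_num) (by norm_num)
      (by norm_num) (by norm_num) (by norm_num) (by norm_num) (dR_eq 0)
  · exact ty1 _ 0 3 2 _ _ _ _ _ _ _ _ (by norm_num) (by norm_num) (by norm_num) (by norm_num)
      (by norm_num) (by norm_num) cOK_eq
  · exact ty1 _ 0 2 3 _ _ _ _ _ _ _ _ (by norm_num) (by norm_num) (by norm_num) (by norm_num)
      (by norm_num) (by norm_num) dRcO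
  · exact ty1 _ 0 1 1 _ _ _ _ _ _ _ _ (by norm_num) (by norm_num) (by norm_num) (by norm_num)
      (by norm_num) (by norm_num) dOK_eq
  · exact ty0 _ 1 4 4 _ _ _ _ _ _ _ _ (by norm_num) (by norm_num) (by norm_num) (by norm_num)
      (by norm_num) (by norm_num) (by norm_num) (by norm_num) (dR_eq 1)
  · exact ty1 _ 1 3 2 _ _ _ _ _ _ _ _ (by norm_num) (by norm_num) (by norm_num) (by norm_num)
      (by norm_num) (by norm_num) c2K_eq
  · exact ty1 _ 1 2 3 _ _ _ _ _ _ _ _ (by norm_num) (by norm_num) (by norm_num) (by norm_num)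
      (by norm_num) (by norm_num) dRc2
  · exact ty1 _ 1 4 4 _ _ _ _ _ _ _ _ (by norm_num) (by norm_num) (by norm_num) (by norm_num)
      (by norm_num) (by norm_num) c3K_eq
  · exact ty1 _ 1 4 4 _ _ _ _ _ _ _ _ (by norm_num) (by norm_num) (by norm_num) (by norm_num)
      (by norm_num) (by norm_num) c1K_eq
  · exact ty1 _ 1 3 2 _ _ _ _ _ _ _ _ (by norm_num) (by norm_num) (by norm_num) (by norm_num)
      (by norm_num) (by norm_num) dMK_eq
  · exact ty0 _ 1 2 3 _ _ _ _ _ _ _ _ (by norm_num) (by norm_num) (by norm_num) (by norm_num)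
      (by norm_num) (by norm_num) (by norm_num) (by norm_num) gaK_eq

end Pool.Agent.Helper44.TK5
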